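import Pool.Agent.TH416.MI.Mono

/-!
# Project MI: masses of discs
-/

set_option autoImplicit false

open MeasureTheory Set Metric Filter Topology
open scoped ENNReal Real

noncomputable section

namespace Pool.Agent.TH416.MI

open Pool.Agent.TH304.MI

lemma al_ball (t r : ℝ) (hr : r ∈ Ioo (0 : ℝ) 1) :
    al (ball 0 t) r = (Iio t).indicator (fun _ => 2 * π) r := by
  have hn : ∀ θ : ℝ, ‖(r : ℂ) * Complex.exp (θ * Complex.I)‖ = r := by
    intro θ
    rw [norm_mul, Complex.norm_exp_ofReal_mul_I, mul_one, Complex.norm_real, Real.norm_eq_abs,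
      abs_of_pos hr.1]
  unfold al
  simp only [mem_ball, dist_zero_right, hn]
  by_cases h : r < t
  · rw [indicator_of_mem (show r ∈ Iio t from h)]
    have h1 : {θ : ℝ | θ ∈ Ioo (-π) π ∧ r < t} = Ioo (-π) π := by
      ext θ
      simp [h]
    rw [h1, Real.volume_Ioo, ENNReal.toReal_ofReal (by linarith [Real.pi_pos])]
    ring
  · rw [indicator_of_notMem (show r ∉ Iio t from h)]
    have h1 : {θ : ℝ | θ ∈ Ioo (-π) π ∧ r < t} = ∅ := by
      ext θ
      simp [h]
    rw [h1]
    simp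

lemma integrable_weight (b : ℕ) : IntegrableOn (fun z : ℂ => (1 - ‖z‖) ^ b) D1 := by
  have hc : Continuous (fun z : ℂ => (1 - ‖z‖) ^ b) := by fun_prop
  have h := hc.continuousOn.integrableOn_compact (μ := volume) (isCompact_closedBall (0 : ℂ) 1)
  exact h.mono_set ball_subset_closedBall

lemma ms_ball (hpol : S_pol) (b : ℕ) {t : ℝ} (ht : t ∈ Icc (0 : ℝ) 1) :
    ms b (ball 0 t) = 2 * π * U b t := by
  have h1 := (hpol (ball 0 t) measurableSet_ball (ball_subset_ball ht.2)
    (fun r => (1 - r) ^ b) (by fun_prop) (integrable_weight b)).2.2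
  unfold ms
  rw [h1]
  have h2 : ∫ r in Ioo (0 : ℝ) 1, (1 - r) ^ b * r * al (ball 0 t) r =
      ∫ r in Ioo (0 : ℝ) 1, (Iio t).indicator (fun r => (1 - r) ^ b * r * (2 * π)) r := by
    apply setIntegral_congr_fun measurableSet_Ioo
    intro r hr
    simp only
    rw [al_ball t r hr]
    by_cases h : r ∈ Iio t
    · rw [indicator_of_mem h, indicator_of_mem h]
    · rw [indicator_of_notMem h, indicator_of_notMem h, mul_zero]
  rw [h2, setIntegral_indicator measurableSet_Iio]
  have h3 : Ioo (0 : ℝ) 1 ∩ Iio t = Ioo 0 t := by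
    ext r
    simp only [mem_inter_iff, mem_Ioo, mem_Iio]
    constructor
    · rintro ⟨⟨h, -⟩, h'⟩
      exact ⟨h, h'⟩
    · rintro ⟨h, h'⟩
      exact ⟨⟨h, h'.trans_le ht.2⟩, h'⟩
  rw [h3, ← integral_Ioc_eq_integral_Ioo, ← intervalIntegral.integral_of_le ht.1]
  have h4 : ∀ r : ℝ, HasDerivAt (fun r => 2 * π * U b r) ((1 - r) ^ b * r * (2 * π)) r := by
    intro r
    have h5 := (hasDerivAt_U b r).const_mul (2 * π)
    have h6 : 2 * π * (r * (1 - r) ^ b) = (1 - r) ^ b * r * (2 * π) := by ring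
    rw [h6] at h5
    exact h5
  rw [intervalIntegral.integral_eq_sub_of_hasDerivAt (fun r _ => h4 r)
    (Continuous.intervalIntegrable (by fun_prop) _ _), U_zero, mul_zero, sub_zero]

theorem t_U (hpol : S_pol) : S_U := by
  intro b
  refine ⟨hasDerivAt_U b, U_zero b, U_one b, ?_, fun t ht => ms_ball hpol b ht⟩
  have h := ms_ball hpol b (right_mem_Icc.2 (zero_le_one (α := ℝ)))
  rw [U_one] at h
  exact h

end Pool.Agent.TH416.MI
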