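import Pool.Agent.TH304.MI.Stm

/-!
# Project MI: masses of discs, monotonicity of the calibration constants, the half-mass disc
-/

set_option autoImplicit false

open MeasureTheory Set Metric Filter Topology
open scoped ENNReal Real

noncomputable section

namespace Pool.Agent.TH416.MI

open Pool.Agent.TH304.MI

lemma hasDerivAt_U (b : ℕ) (r : ℝ) : HasDerivAt (U b) (r * (1 - r) ^ b) r := by
  have h1 : HasDerivAt (fun r : ℝ => 1 - r) (-1) r := by
    simpa using (hasDerivAt_id r).const_sub 1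
  have h2 : HasDerivAt (fun r : ℝ => (1 - r) ^ (b + 1)) (((b + 1 : ℕ) : ℝ) * (1 - r) ^ b * (-1)) r := by
    simpa using h1.fun_pow (b + 1)
  have h3 : HasDerivAt (fun r : ℝ => 1 + ((b : ℝ) + 1) * r) (((b : ℝ) + 1)) r := by
    simpa using ((hasDerivAt_id r).const_mul ((b : ℝ) + 1)).const_add 1
  have h4 := ((h2.mul h3).const_sub 1).div_const (((b : ℝ) + 1) * (b + 2))
  have h5 : -(((b + 1 : ℕ) : ℝ) * (1 - r) ^ b * (-1) * (1 + ((b : ℝ) + 1) * r) +
      (1 - r) ^ (b + 1) * ((b : ℝ) + 1)) / (((b : ℝ) + 1) * (b + 2)) = r * (1 - r) ^ b := by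
    have hb1 : ((b : ℝ) + 1) ≠ 0 := by positivity
    have hb2 : ((b : ℝ) + 2) ≠ 0 := by positivity
    rw [div_eq_iff (mul_ne_zero hb1 hb2)]
    push_cast
    ring
  rw [h5] at h4
  exact h4

lemma U_zero (b : ℕ) : U b 0 = 0 := by
  unfold U
  simp

lemma U_one (b : ℕ) : U b 1 = m0 b := by
  unfold U m0
  simp

lemma m0_sub_U (b : ℕ) (r : ℝ) :
    m0 b - U b r = (1 - r) ^ (b + 1) * (1 + (b + 1) * r) / ((b + 1) * (b + 2)) := by
  unfold U m0
  rw [← sub_div]
  congr 1
  ring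

lemma continuous_U (b : ℕ) : Continuous (U b) := by
  rw [continuous_iff_continuousAt]
  intro r
  exact (hasDerivAt_U b r).continuousAt

lemma U_pos (b : ℕ) {r : ℝ} (h0 : 0 < r) (h1 : r < 1) : 0 < U b r := by
  unfold U
  apply div_pos _ (by positivity)
  rw [sub_pos]
  have h2 : 1 + ((b : ℝ) + 1) * r ≤ (1 + r) ^ (b + 1) := by
    have h := one_add_mul_le_pow (show (-2 : ℝ) ≤ r by linarith) (b + 1)
    push_cast at h
    exact h
  calc (1 - r) ^ (b + 1) * (1 + ((b : ℝ) + 1) * r)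
      ≤ (1 - r) ^ (b + 1) * (1 + r) ^ (b + 1) :=
        mul_le_mul_of_nonneg_left h2 (pow_nonneg (by linarith) _)
    _ = ((1 - r) * (1 + r)) ^ (b + 1) := by rw [mul_pow]
    _ < 1 := by
        apply pow_lt_one₀ _ _ (Nat.succ_ne_zero b)
        · exact mul_nonneg (by linarith) (by linarith)
        · nlinarith

lemma m0_sub_U_pos (b : ℕ) {t : ℝ} (h0 : 0 < t) (h1 : t < 1) : 0 < m0 b - U b t := by
  rw [m0_sub_U]
  have h2 : (0 : ℝ) < 1 - t := by linarith
  positivity

lemma mono_one (b : ℕ) {r t : ℝ} (h0 : 0 < r) (hrt : r ≤ t) (h1 : t < 1) :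
    (t * (1 - t) ^ b) * U b r ≤ (r * (1 - r) ^ b) * U b t := by
  have hd : ∀ u : ℝ, HasDerivAt (fun u : ℝ => (r * (1 - r) ^ b) * U b (t * u) -
      (t * (1 - t) ^ b) * U b (r * u))
      ((r * (1 - r) ^ b) * ((t * u) * (1 - t * u) ^ b * t) -
        (t * (1 - t) ^ b) * ((r * u) * (1 - r * u) ^ b * r)) u := by
    intro u
    have h3 : ∀ a : ℝ, HasDerivAt (fun u : ℝ => U b (a * u)) ((a * u) * (1 - a * u) ^ b * a) u := by
      intro a
      have h4 : HasDerivAt (fun u : ℝ => a * u) a u := by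
        simpa using (hasDerivAt_id u).const_mul a
      exact (hasDerivAt_U b (a * u)).comp u h4
    exact ((h3 t).const_mul _).sub ((h3 r).const_mul _)
  have hm : MonotoneOn (fun u : ℝ => (r * (1 - r) ^ b) * U b (t * u) -
      (t * (1 - t) ^ b) * U b (r * u)) (Icc 0 1) := by
    apply monotoneOn_of_deriv_nonneg (convex_Icc 0 1)
    · intro u _
      exact (hd u).continuousAt.continuousWithinAt
    · intro u _
      exact (hd u).differentiableAt.differentiableWithinAt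
    · intro u hu
      rw [interior_Icc] at hu
      rw [(hd u).deriv, sub_nonneg]
      have h5 : ((1 - t) * (1 - r * u)) ^ b ≤ ((1 - r) * (1 - t * u)) ^ b := by
        apply pow_le_pow_left₀
        · apply mul_nonneg (by linarith)
          nlinarith [hu.1, hu.2]
        · nlinarith [hu.1, hu.2, mul_nonneg (sub_nonneg.2 hrt) (sub_nonneg.2 hu.2.le)]
      have h6 : (t * (1 - t) ^ b) * ((r * u) * (1 - r * u) ^ b * r) =
          (t * r * u) * (((1 - t) * (1 - r * u)) ^ b * r) := by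
        rw [mul_pow]; ring
      have h7 : (r * (1 - r) ^ b) * ((t * u) * (1 - t * u) ^ b * t) =
          (t * r * u) * (((1 - r) * (1 - t * u)) ^ b * t) := by
        rw [mul_pow]; ring
      rw [h6, h7]
      have ht : 0 < t := lt_of_lt_of_le h0 hrt
      apply mul_le_mul_of_nonneg_left _ (by have := hu.1; positivity)
      apply mul_le_mul h5 hrt h0.le
      apply pow_nonneg
      apply mul_nonneg (by linarith)
      nlinarith [hu.1, hu.2]
  have h8 := hm (left_mem_Icc.2 zero_le_one) (right_mem_Icc.2 zero_le_one) zero_le_one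
  simp only [mul_zero, mul_one, U_zero, sub_zero] at h8
  linarith

lemma mono_two (b : ℕ) {r t : ℝ} (h0 : 0 < r) (hrt : r ≤ t) (h1 : t < 1) :
    (r * (1 - r) ^ b) * (m0 b - U b t) ≤ (t * (1 - t) ^ b) * (m0 b - U b r) := by
  rw [m0_sub_U, m0_sub_U, ← mul_div_assoc, ← mul_div_assoc]
  apply div_le_div_of_nonneg_right _ (by positivity)
  have h2 : r * (1 - r) ^ b * ((1 - t) ^ (b + 1) * (1 + (b + 1) * t)) =
      ((1 - r) ^ b * (1 - t) ^ b) * (r * (1 - t) * (1 + (b + 1) * t)) := by ring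
  have h3 : t * (1 - t) ^ b * ((1 - r) ^ (b + 1) * (1 + (b + 1) * r)) =
      ((1 - r) ^ b * (1 - t) ^ b) * (t * (1 - r) * (1 + (b + 1) * r)) := by ring
  rw [h2, h3]
  have hr1 : 0 ≤ 1 - r := by linarith
  have ht1 : 0 ≤ 1 - t := by linarith
  apply mul_le_mul_of_nonneg_left _ (by positivity)
  have ht : 0 < t := lt_of_lt_of_le h0 hrt
  have h4 : t * (1 - r) * (1 + ((b : ℝ) + 1) * r) - r * (1 - t) * (1 + ((b : ℝ) + 1) * t) =
      (t - r) * (1 + ((b : ℝ) + 1) * (r * t)) := by ring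
  have h5 : 0 ≤ (t - r) * (1 + ((b : ℝ) + 1) * (r * t)) :=
    mul_nonneg (by linarith) (by positivity)
  linarith

theorem t_mono : S_mono := by
  intro b r t h0 hrt h1
  exact ⟨mono_one b h0 hrt h1, mono_two b h0 hrt h1, U_pos b h0 (by linarith),
    m0_sub_U_pos b (by linarith) h1⟩

/-! ## Numerics -/

lemma monotoneOn_U (b : ℕ) : StrictMonoOn (U b) (Icc 0 1) := by
  apply strictMonoOn_of_deriv_pos (convex_Icc 0 1) (continuous_U b).continuousOn
  intro u hu
  rw [interior_Icc] at hu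
  rw [(hasDerivAt_U b u).deriv]
  have h1 : (0 : ℝ) < 1 - u := by linarith [hu.2]
  have h2 := hu.1
  positivity

lemma exp_bound : (5.358 : ℝ) ≤ Real.exp 1.679 := by
  have h := Real.sum_le_exp_of_nonneg (show (0 : ℝ) ≤ 1.679 by norm_num) 11
  refine le_trans ?_ h
  simp only [Finset.sum_range_succ, Finset.sum_range_zero, Nat.factorial]
  norm_num

theorem t_num : S_num := by
  intro b hb
  have hbr : (10000 : ℝ) ≤ b := by exact_mod_cast hb
  have hm0 : 0 < m0 b := by unfold m0; positivity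
  have hiv := intermediate_value_Ioo (zero_le_one (α := ℝ)) (continuous_U b).continuousOn
  rw [U_zero, U_one] at hiv
  obtain ⟨ρ, hρ, hU⟩ := hiv (show m0 b / 2 ∈ Ioo 0 (m0 b) from ⟨by linarith, by linarith⟩)
  refine ⟨ρ, hρ.1, hρ.2, hU, ?_⟩
  have hB : (0 : ℝ) < (b : ℝ) + 1 := by positivity
  have hB2 : (0 : ℝ) < (b : ℝ) + 2 := by positivity
  -- the equation for `ρ`
  have hq : (1 - ρ) ^ (b + 1) * (1 + ((b : ℝ) + 1) * ρ) = 1 / 2 := by
    have h1 := m0_sub_U b ρ
    rw [hU] at h1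
    have h2 : m0 b - m0 b / 2 = 1 / 2 / (((b : ℝ) + 1) * (b + 2)) := by
      unfold m0
      ring
    rw [h2, div_left_inj' (by positivity)] at h1
    exact h1.symm
  -- the bound for `ρ`
  have hs : ρ ≤ 1.679 / ((b : ℝ) + 1) := by
    by_contra hcon
    push Not at hcon
    have h3 : 0 < 1.679 / ((b : ℝ) + 1) := by positivity
    have h4 := monotoneOn_U b (show 1.679 / ((b : ℝ) + 1) ∈ Icc (0 : ℝ) 1 from
      ⟨h3.le, hcon.le.trans hρ.2.le⟩) ⟨hρ.1.le, hρ.2.le⟩ hcon
    rw [hU] at h4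
    have h5 := m0_sub_U b (1.679 / ((b : ℝ) + 1))
    have h6 : ((b : ℝ) + 1) * (1.679 / ((b : ℝ) + 1)) = 1.679 := by field_simp
    rw [h6] at h5
    have h7 : (1 - 1.679 / ((b : ℝ) + 1)) ^ (b + 1) ≤ Real.exp (-1.679) := by
      have h8 : 1 - 1.679 / ((b : ℝ) + 1) ≤ Real.exp (-(1.679 / ((b : ℝ) + 1))) := by
        have := Real.add_one_le_exp (-(1.679 / ((b : ℝ) + 1)))
        linarith
      calc (1 - 1.679 / ((b : ℝ) + 1)) ^ (b + 1)
          ≤ (Real.exp (-(1.679 / ((b : ℝ) + 1)))) ^ (b + 1) := by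
            apply pow_le_pow_left₀ _ h8
            linarith [hρ.2]
        _ = Real.exp (-1.679) := by
            rw [← Real.exp_nat_mul]
            congr 1
            push_cast
            rw [mul_neg, h6]
    have h9 : Real.exp (-1.679) * (1 + 1.679) ≤ 1 / 2 := by
      rw [Real.exp_neg, inv_mul_eq_div, div_le_iff₀ (Real.exp_pos _)]
      have := exp_bound
      linarith
    have h10 : (1 - 1.679 / ((b : ℝ) + 1)) ^ (b + 1) * (1 + 1.679) ≤ 1 / 2 :=
      (mul_le_mul_of_nonneg_right h7 (by norm_num)).trans h9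
    have h11 : m0 b - U b (1.679 / ((b : ℝ) + 1)) ≤ m0 b / 2 := by
      rw [h5]
      have h12 : m0 b / 2 = 1 / 2 / (((b : ℝ) + 1) * (b + 2)) := by
        unfold m0
        ring
      rw [h12]
      exact div_le_div_of_nonneg_right h10 (by positivity)
    linarith
  have hs' : ((b : ℝ) + 1) * ρ ≤ 1.679 := by
    rw [le_div_iff₀ hB] at hs
    linarith
  have hρ1 : ρ ≤ 1.679 / 10001 := by
    refine hs.trans ?_
    apply div_le_div_of_nonneg_left (by norm_num) (by norm_num)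
    linarith
  have h1ρ : 0 < 1 - ρ := by linarith [hρ.2]
  have hspos : 0 < ((b : ℝ) + 1) * ρ := mul_pos hB hρ.1
  have hpow : (1 - ρ) ^ b = 1 / 2 / ((1 + ((b : ℝ) + 1) * ρ) * (1 - ρ)) := by
    rw [eq_div_iff (by positivity), ← hq, pow_succ]
    ring
  rw [hpow, le_div_iff₀ hB]
  have h13 : 2 * π * ρ * (1 / 2 / ((1 + ((b : ℝ) + 1) * ρ) * (1 - ρ))) * ((b : ℝ) + 1) =
      π * ((((b : ℝ) + 1) * ρ) / ((1 + ((b : ℝ) + 1) * ρ) * (1 - ρ))) := by
    field_simp
  rw [h13]
  have h14 : (((b : ℝ) + 1) * ρ) / ((1 + ((b : ℝ) + 1) * ρ) * (1 - ρ)) ≤ 0.62684 := by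
    rw [div_le_iff₀ (by positivity)]
    have h15 : 1 - 1.679 / 10001 ≤ 1 - ρ := by linarith
    have h16 : (1 + ((b : ℝ) + 1) * ρ) * (1 - 1.679 / 10001) ≤
        (1 + ((b : ℝ) + 1) * ρ) * (1 - ρ) := mul_le_mul_of_nonneg_left h15 (by positivity)
    norm_num at h16 hs' ⊢
    linarith
  have h17 : π ≤ 3.1416 := Real.pi_lt_d4.le
  calc π * ((((b : ℝ) + 1) * ρ) / ((1 + ((b : ℝ) + 1) * ρ) * (1 - ρ)))
      ≤ 3.1416 * 0.62684 := by
        apply mul_le_mul h17 h14 (by positivity) (by norm_num)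
    _ ≤ 1.9695 := by norm_num

end Pool.Agent.TH416.MI
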